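import Pool.Agent.Helper10.UL.Unr
import Pool.Agent.Helper10.BT.A4

/-!
# Project SHARP: ramified Kummer classes are moved by inertia, for all exponents
-/

set_option linter.unusedSectionVars false

universe u

namespace Pool.Agent.SX

open Polynomial VC FF Pool.Agent.Helper91.Sect Pool.Agent.Helper91.SE

/-- If `q` does not divide the order of `w ^ q` at a place, some element of the inertia group of
a valuation ring above this place moves `w`. -/
theorem exists_inert {κ M C : Type u} [Field κ] [IsAlgClosed κ] [Field M] [Field C] [Algebra κ M]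
    [Algebra M C] [IsAlgClosure M C] [CharZero M] (hM : IsFunctionField κ M) (P : Place κ M)
    {q : ℕ} {δ : M} (hδ : δ ≠ 0) (hord : ¬ (q : ℤ) ∣ ord P.ring δ) {w : C}
    (hw : w ^ q = algebraMap M C δ) :
    ∃ (V : ValuationSubring C) (τ : C ≃ₐ[M] C),
      (∀ x ∈ P.ring, algebraMap M C x ∈ V) ∧
      (∀ x ∈ P.ring.nonunits, V.valuation (algebraMap M C x) < 1) ∧
      (∀ x, τ x ∈ V ↔ x ∈ V) ∧ (∀ x ∈ V, V.valuation (τ x - x) < 1) ∧ τ w ≠ w := by
  classical
  have hCa : IsAlgClosed C := IsAlgClosure.isAlgClosed M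
  have hC0 : CharZero C := charZero_of_injective_algebraMap (algebraMap M C).injective
  have hκ0 : CharZero κ := ⟨fun a b hab => by
    have h := congrArg (algebraMap κ M) hab
    rw [map_natCast, map_natCast] at h
    exact Nat.cast_injective h⟩
  -- a prime power
  obtain ⟨p, b, hp, hb, hbm⟩ : ∃ p b : ℕ, p.Prime ∧ p ^ b ∣ q ∧ ¬ p ^ b ∣ (ord P.ring δ).natAbs := by
    by_contra hcon
    push Not at hcon
    apply hord
    rw [Int.natCast_dvd]
    exact (Nat.dvd_iff_prime_pow_dvd_dvd _ _).2 fun p k hp hk => hcon p k hp hk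
  obtain ⟨c, rfl⟩ : ∃ c, b = c + 1 := by
    cases b with
    | zero => exact absurd (one_dvd _) hbm
    | succ c => exact ⟨c, rfl⟩
  obtain ⟨q', hq'⟩ := hb
  set r := p ^ (c + 1) with hr
  have hr0 : r ≠ 0 := pow_ne_zero _ hp.ne_zero
  -- the uniformizer
  obtain ⟨π, hπ0, hπ⟩ := exists_uniformizer hM P
  obtain ⟨ϖ, hϖ⟩ : ∃ ϖ : C, ϖ ^ r = algebraMap M C π :=
    IsAlgClosed.exists_pow_nat_eq _ (Nat.pos_of_ne_zero hr0)
  have hϖ1 : (ϖ ^ p ^ c) ^ p = algebraMap M C π := by rw [← pow_mul, ← pow_succ, hϖ]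
  obtain ⟨V, τ, h1, h2, h3, h4, h5⟩ := UL.exists_inert (C := C) hM P hp hπ0 (by
    rw [hπ]
    intro h
    have h6 := Int.natCast_dvd_natCast.1 (by exact_mod_cast h : (p : ℤ) ∣ ((1 : ℕ) : ℤ))
    exact hp.one_lt.ne' (Nat.dvd_one.1 h6)) hϖ1
  refine ⟨V, τ, h1, h2, h3, h4, fun hτw => ?_⟩
  have hϖ0 : ϖ ≠ 0 := by
    rintro rfl
    rw [zero_pow hr0] at hϖ
    exact hπ0 ((map_eq_zero _).1 hϖ.symm)
  -- the root of unity
  set η := τ ϖ / ϖ with hη
  have hτϖ : τ ϖ = η * ϖ := (div_mul_cancel₀ _ hϖ0).symm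
  have hηr : η ^ r = 1 := by
    rw [hη, div_pow, ← map_pow, hϖ, AlgEquiv.commutes, ← hϖ]
    exact div_self (pow_ne_zero _ hϖ0)
  have hηne : ¬ η ^ p ^ c = 1 := by
    intro h
    apply h5
    rw [map_pow, hτϖ, mul_pow, h, one_mul]
  have hord' : orderOf η = r := by
    have : Fact p.Prime := ⟨hp⟩
    exact orderOf_eq_prime_pow hηne hηr
  -- the other root
  set w' := w ^ q' with hw'
  have hw'r : w' ^ r = algebraMap M C δ := by
    rw [hw', ← pow_mul, mul_comm q' r, ← hq', hw]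
  have hτw' : τ w' = w' := by rw [hw', map_pow, hτw]
  have hw'0 : w' ≠ 0 := by
    intro h0
    rw [h0, zero_pow hr0] at hw'r
    exact hδ ((map_eq_zero _).1 hw'r.symm)
  set m := ord P.ring δ with hm
  set ε := w' / ϖ ^ m with hε
  have hϖm : ϖ ^ m ≠ 0 := zpow_ne_zero _ hϖ0
  have hε0 : ε ≠ 0 := div_ne_zero hw'0 hϖm
  have hεr : ε ^ r = algebraMap M C (δ / π ^ m) := by
    rw [hε, div_pow, hw'r, ← zpow_natCast, ← zpow_mul, mul_comm m, zpow_mul, zpow_natCast, hϖ,
      map_div₀, map_zpow₀]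
  have hu0 : δ / π ^ m ≠ 0 := div_ne_zero hδ (zpow_ne_zero _ hπ0)
  have hord0 : ord P.ring (δ / π ^ m) = 0 := by
    rw [ord_div hM P hδ (zpow_ne_zero _ hπ0), ord_zpow hM P hπ0, hπ, ← hm]
    ring
  have hεv : V.valuation ε = 1 := by
    have h6 : δ / π ^ m ∈ P.ring := (FF.ord_nonneg_iff hM P hu0).1 hord0.ge
    have h7 : (δ / π ^ m)⁻¹ ∈ P.ring := by
      refine (FF.ord_nonneg_iff hM P (inv_ne_zero hu0)).1 ?_
      rw [FF.ord_inv hM P hu0, hord0, neg_zero]
    have h8 : V.valuation (algebraMap M C (δ / π ^ m)) = 1 := by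
      refine le_antisymm ((V.valuation_le_one_iff _).2 (h1 _ h6)) ?_
      have h9 := (V.valuation_le_one_iff _).2 (h1 _ h7)
      rw [map_inv₀, map_inv₀] at h9
      have h10 : V.valuation (algebraMap M C (δ / π ^ m)) ≠ 0 :=
        (Valuation.ne_zero_iff _).2 ((_root_.map_ne_zero _).2 hu0)
      exact (inv_le_one₀ (zero_lt_iff.2 h10)).1 h9
    rw [← hεr, map_pow] at h8
    exact (pow_eq_one_iff_of_nonneg zero_le hr0).1 h8
  have hrinv : (r : C)⁻¹ ∈ V := by
    have h6 : algebraMap κ M ((r : κ)⁻¹) ∈ P.ring := P.algebraMap_mem _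
    have h7 := h1 _ h6
    rwa [map_inv₀, map_inv₀, map_natCast, map_natCast] at h7
  have hrC : (r : C) ≠ 0 := Nat.cast_ne_zero.2 hr0
  have hτε : τ ε = ε := by
    have h6 : (τ ε / ε) ^ r = 1 := by
      rw [div_pow, ← map_pow, hεr, AlgEquiv.commutes, ← hεr]
      exact div_self (pow_ne_zero _ hε0)
    have h7 : V.valuation (τ ε / ε - 1) < 1 := by
      have h8 : τ ε / ε - 1 = (τ ε - ε) / ε := by field_simp
      rw [h8, map_div₀, hεv, div_one]
      exact h4 ε ((V.valuation_le_one_iff _).1 hεv.le)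
    have h8 := PL.mu_eq_one hrinv hrC h6 h7
    rwa [div_eq_one_iff_eq hε0] at h8
  -- conclusion
  have h6 : w' = ϖ ^ m * ε := by rw [hε, mul_div_cancel₀ _ hϖm]
  have h7 : η ^ m = 1 := by
    have h8 := hτw'
    rw [h6, map_mul, map_zpow₀, hτϖ, mul_zpow, hτε, mul_assoc] at h8
    exact (mul_eq_right₀ (mul_ne_zero hϖm hε0)).1 h8
  have h8 : η ^ m.natAbs = 1 := by
    rcases Int.natAbs_eq m with h9 | h9
    · rw [h9, zpow_natCast] at h7
      exact h7
    · rw [h9, zpow_neg, inv_eq_one, zpow_natCast] at h7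
      exact h7
  have h9 := orderOf_dvd_iff_pow_eq_one.2 h8
  rw [hord'] at h9
  exact hbm h9

end Pool.Agent.SX
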