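import Pool.Agent.Helper10.BT.A5

/-!
# Project SHARP: the constants, for any linear system, over `kbar` (all exponents)
-/

universe u

set_option linter.unusedSectionVars false

namespace Pool.Agent.SX

open Pool.Agent.BT Pool.Agent.PL Pool.Agent.Helper91.Sect OE Pool.Agent.LT Pool.Agent.SC Pool.Agent.GC

section

variable {k k' K : Type u} [Field k] [CharZero k] [Field k'] [Field K]
  [Algebra k k'] [Algebra k' K]
  [Algebra k (kbar k' K)] [IsScalarTower k k' (kbar k' K)] [FiniteDimensional k k']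
  [Algebra.IsAlgebraic k (kbar k' K)] {ι κ : Type} [Fintype ι] [Fintype κ]

/-- **The constants attached to a Galois section over an extension**, for all exponents `p`. -/
theorem lev_kbar {p d r : ℕ} (hp : 0 < p) (hd : d = p * r)
    (s : GaloisSection k' K) {v : ι → K} {v' : κ → K}
    {G : Fin d → ι → kbar k' K} {W : κ → kbar k' K} {T : k} (hT : T ≠ 0)
    (hG0' : ∀ (φ : kbar k' K ≃ₐ[k] kbar k' K) i, evl v (fun q => φ (G i q)) ≠ 0)
    (hprod' : ∀ φ : kbar k' K ≃ₐ[k] kbar k' K, ∏ i, evl v (fun q => φ (G i q)) =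
      ((algebraMap k (kbar k' K) T : kbar k' K) : AlgebraicClosure K) *
        evl v' (fun q => φ (W q)) ^ p)
    (hKur' : ∀ (φ : kbar k' K ≃ₐ[k] kbar k' K) i j, i ≠ j → ∀ w : AlgebraicClosure K,
      w ^ p * evl v (fun q => φ (G j q)) = evl v (fun q => φ (G i q)) → w ∈ Kur k' K) :
    ∃ z : Fin d → Fin d → kbar k' K,
      (∀ i j, i ≠ j → z i j ≠ 0) ∧
      (∀ i j, i ≠ j → z i j ^ p ∈ IntermediateField.adjoin k
        (mu (kbar k' K) p ∪ (Set.range (G i) ∪ Set.range (G j)))) ∧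
      (∀ (σ : kbar k' K ≃ₐ[k] kbar k' K) (i j i' j' : Fin d), i ≠ j → i' ≠ j' →
        (∀ q, σ (G i q) = G i' q) → (∀ q, σ (G j q) = G j' q) →
        σ (z i j) / z i' j' ∈ IntermediateField.adjoin k
          (mu (kbar k' K) p ∪ (Set.range (G i') ∪ Set.range (G j')))) ∧
      (∀ i j l, i ≠ j → j ≠ l → i ≠ l → z i j * z j l / z i l ∈ IntermediateField.adjoin k
        (mu (kbar k' K) p ∪ (Set.range (G i) ∪ Set.range (G j) ∪ Set.range (G l)))) ∧
      (∀ α : kbar k' K, α ^ p = algebraMap k (kbar k' K) T → ∀ i,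
        α ^ (Module.finrank k k' % p) / ∏ j ∈ Finset.univ.erase i, z j i ∈
        IntermediateField.adjoin k (mu (kbar k' K) p ∪ ((⋃ j, Set.range (G j)) ∪ Set.range W))) ∧
      ∀ V : ValuationSubring (kbar k' K), (p : kbar k' K)⁻¹ ∈ V → ∀ i j, i ≠ j →
        (∀ (φ : kbar k' K ≃ₐ[k] kbar k' K) (τ : Gk k' K), (∀ q, τ (φ (G i q)) = φ (G i q)) →
          (∀ q, τ (φ (G j q)) = φ (G j q)) →
          InInert (V.comap ((φ.symm : kbar k' K ≃+* kbar k' K) : kbar k' K →+* kbar k' K)) τ →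
          ∀ ρ : AlgebraicClosure K ≃ₐ[K] AlgebraicClosure K, (∀ w : Kur k' K, ρ w = s.toHom τ w) →
          ∀ w ∈ Kur k' K, w ^ p * evl v (fun q => φ (G j q)) = evl v (fun q => φ (G i q)) →
            ρ w = w) →
        ∀ σ : kbar k' K ≃ₐ[k] kbar k' K, (∀ w, σ w ∈ V ↔ w ∈ V) →
          (∀ w ∈ V, V.valuation (σ w - w) < 1) → (∀ q, σ (G i q) = G i q) →
          (∀ q, σ (G j q) = G j q) → σ (z i j) = z i j := by
  classical
  have hp' : p ≠ 0 := hp.ne'
  have hk0' : CharZero k' := charZero_of_injective_algebraMap (algebraMap k k').injective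
  have hkb0 : CharZero (kbar k' K) :=
    charZero_of_injective_algebraMap (algebraMap k' (kbar k' K)).injective
  have hIC : IsAlgClosure k (kbar k' K) := ⟨inferInstance, inferInstance⟩
  have hGal : IsGalois k (kbar k' K) := IsAlgClosure.isGalois k (kbar k' K)
  -- the roots
  have hexu : ∀ A : ι → kbar k' K, ∃ u : AlgebraicClosure K, u ^ p = evl v A :=
    fun A => IsAlgClosed.exists_pow_nat_eq _ hp
  choose u hu using hexu
  have hG0 : ∀ (ω : k' →ₐ[k] kbar k' K) i, evl v (mv ω (G i)) ≠ 0 := fun ω i =>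
    hG0' (lft ω).symm i
  have hTC : algebraMap k (kbar k' K) T ≠ 0 := (_root_.map_ne_zero _).2 hT
  have hKur : ∀ (ω : k' →ₐ[k] kbar k' K) i j, i ≠ j → u (mv ω (G i)) / u (mv ω (G j)) ∈ Kur k' K := by
    intro ω i j hij
    refine hKur' (lft ω).symm i j hij _ ?_
    change (u (mv ω (G i)) / u (mv ω (G j))) ^ p * evl v (mv ω (G j)) = evl v (mv ω (G i))
    rw [div_pow, hu, hu, div_mul_cancel₀ _ (hG0 ω j)]
  have hGW : ∀ i j, i ≠ j → GoodW k v u (G i) (G j) := fun i j hij ω =>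
    ⟨hG0 ω i, hG0 ω j, hKur ω i j hij⟩
  obtain ⟨z, hz⟩ := exists_zE s hp' hu
  -- the exponent
  set cd := Fintype.card (k' →ₐ[k] kbar k' K) with hcd
  have hcd' : cd = Module.finrank k k' := AlgHom.card k k' (kbar k' K)
  have hr' : cd = Module.finrank k k' % p + p * (cd / p) := by
    rw [← hcd']
    exact (Nat.mod_add_div cd p).symm
  set l' := cd / p with hl'
  set c' := Module.finrank k k' % p with hc'
  set Z : Fin d → Fin d → kbar k' K := fun i j => zz k z (G i) (G j) with hZ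
  have hzz0 : ∀ i j, i ≠ j → zz k z (G i) (G j) ≠ 0 := fun i j hij => zz_ne hz (hGW i j hij)
  have hact : ∀ (σ : kbar k' K ≃ₐ[k] kbar k' K) (i j i' j' : Fin d), i ≠ j →
      (∀ q, σ (G i q) = G i' q) → (∀ q, σ (G j q) = G j' q) →
      σ (zz k z (G i) (G j)) = zu z σ (G i) (G j) * zz k z (G i') (G j') := by
    intro σ i j i' j' hij hi hj
    have h1 := zz_act' hp' hu hz (hGW i j hij) σ
    have h2 : (fun q => σ (G i q)) = G i' := funext hi
    have h3 : (fun q => σ (G j q)) = G j' := funext hj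
    rwa [h2, h3] at h1
  refine ⟨Z, hzz0, ?_, ?_, ?_, ?_, ?_⟩
  · intro i j hij
    apply mem_adjoin_fixed
    intro σ hσ
    have h1 := hact σ i j i j hij (fun q => hσ _ (Or.inr (Or.inl ⟨q, rfl⟩)))
      (fun q => hσ _ (Or.inr (Or.inr ⟨q, rfl⟩)))
    change σ (zz k z (G i) (G j) ^ p) = zz k z (G i) (G j) ^ p
    rw [map_pow, h1, mul_pow, zu_pow hp' hu hz (hGW i j hij), one_mul]
  · intro σ i j i' j' hij hij' hi hj
    have h1 := hact σ i j i' j' hij hi hj
    have h2 : σ (Z i j) / Z i' j' = zu z σ (G i) (G j) := by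
      change σ (zz k z (G i) (G j)) / zz k z (G i') (G j') = _
      rw [h1, mul_div_assoc, div_self (hzz0 i' j' hij'), mul_one]
    rw [h2]
    have h3 : zu z σ (G i) (G j) ∈ mu (kbar k' K) p := zu_pow hp' hu hz (hGW i j hij) σ
    exact IntermediateField.subset_adjoin k _ (Or.inl h3)
  · intro i j l hij hjl hil
    apply mem_adjoin_fixed
    intro σ hσ
    have hi : ∀ q, σ (G i q) = G i q := fun q => hσ _ (Or.inr (Or.inl (Or.inl ⟨q, rfl⟩)))
    have hj : ∀ q, σ (G j q) = G j q := fun q => hσ _ (Or.inr (Or.inl (Or.inr ⟨q, rfl⟩)))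
    have hl : ∀ q, σ (G l q) = G l q := fun q => hσ _ (Or.inr (Or.inr ⟨q, rfl⟩))
    have h1 := hact σ i j i j hij hi hj
    have h2 := hact σ j l j l hjl hj hl
    have h3 := hact σ i l i l hil hi hl
    have h4 := zu_mul hp' hu hz (hGW i j hij) (hGW j l hjl) (hGW i l hil) σ
    have h5 : zu z σ (G i) (G l) ≠ 0 := by
      intro h0
      have h6 := zu_pow hp' hu hz (hGW i l hil) σ
      rw [h0, zero_pow hp'] at h6
      exact zero_ne_one h6
    have h6 := hzz0 i l hil
    change σ (zz k z (G i) (G j) * zz k z (G j) (G l) / zz k z (G i) (G l)) =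
      zz k z (G i) (G j) * zz k z (G j) (G l) / zz k z (G i) (G l)
    rw [map_div₀, map_mul, h1, h2, h3, ← h4]
    rw [← h4] at h5
    have h7 := left_ne_zero_of_mul h5
    have h8 := right_ne_zero_of_mul h5
    field_simp
  · intro α hα i
    obtain ⟨ξ, hξ, hξσ⟩ := zz_prod hp' hd hu hz (fun ω => hprod' (lft ω).symm) hG0 hGW hα
    set S : Set (kbar k' K) := mu (kbar k' K) p ∪ ((⋃ j, Set.range (G j)) ∪ Set.range W) with hS
    have hP0 : ∏ j ∈ Finset.univ.erase i, zz k z (G j) (G i) ≠ 0 :=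
      Finset.prod_ne_zero_iff.2 fun j hj => hzz0 j i (Finset.mem_erase.1 hj).1
    have hv : (ξ * α ^ cd) / ∏ j ∈ Finset.univ.erase i, zz k z (G j) (G i) ∈
        IntermediateField.adjoin k S := by
      apply mem_adjoin_fixed
      intro σ hσ
      have hG' : ∀ j q, σ (G j q) = G j q := fun j q =>
        hσ _ (Or.inr (Or.inl (Set.mem_iUnion.2 ⟨j, q, rfl⟩)))
      have hW' : ∀ q, σ (W q) = W q := fun q => hσ _ (Or.inr (Or.inr ⟨q, rfl⟩))
      have h1 := hξσ σ hG' hW' i
      have h2 : σ (∏ j ∈ Finset.univ.erase i, zz k z (G j) (G i)) =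
          (∏ j ∈ Finset.univ.erase i, zu z σ (G j) (G i)) *
            ∏ j ∈ Finset.univ.erase i, zz k z (G j) (G i) := by
        rw [map_prod, ← Finset.prod_mul_distrib]
        exact Finset.prod_congr rfl fun j hj =>
          hact σ j i j i (Finset.mem_erase.1 hj).1 (hG' j) (hG' i)
      have h3 : ∏ j ∈ Finset.univ.erase i, zu z σ (G j) (G i) ≠ 0 := by
        intro h0
        rw [h0, zero_mul] at h2
        exact hP0 ((map_eq_zero σ).1 h2)
      rw [map_div₀, ← h1, h2, mul_div_mul_left _ _ h3]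
    have hξ0 : ξ ≠ 0 := by
      rintro rfl
      rw [zero_pow hp'] at hξ
      exact zero_ne_one hξ
    have hαc : α ^ cd = α ^ c' * algebraMap k (kbar k' K) T ^ l' := by
      rw [← hα, ← pow_mul, ← pow_add, ← hr']
    have h4 : α ^ c' / ∏ j ∈ Finset.univ.erase i, Z j i =
        ((ξ * α ^ cd) / ∏ j ∈ Finset.univ.erase i, zz k z (G j) (G i)) *
          (ξ⁻¹ * (algebraMap k (kbar k' K) T)⁻¹ ^ l') := by
      have h7 := pow_ne_zero l' hTC
      rw [hαc, inv_pow]
      change α ^ c' / ∏ j ∈ Finset.univ.erase i, zz k z (G j) (G i) = _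
      field_simp
    rw [h4]
    refine mul_mem hv (mul_mem (inv_mem ?_) (pow_mem (inv_mem ?_) _))
    · exact IntermediateField.subset_adjoin k _ (Or.inl hξ)
    · exact IntermediateField.algebraMap_mem _ _
  · intro V hpinv i j hij hroot σ hσ1 hσ2 hσi hσj
    have hp0 : (p : kbar k' K) ≠ 0 := Nat.cast_ne_zero.2 hp'
    have hμ : ∀ ξ : kbar k' K, ξ ^ p = 1 → σ ξ = ξ := fun ξ hξ =>
      mu_fixed hp' hpinv hp0 (σ := (σ : kbar k' K ≃+* kbar k' K)) hσ2 hξ
    change σ (zz k z (G i) (G j)) = zz k z (G i) (G j)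
    refine zz_inert hp' hu hz (hGW i j hij) (V := V) ?_ hσi hσj hμ hσ1 hσ2
    intro ω τ hτi hτj hτ
    obtain ⟨ρ, hρ⟩ := exists_ext s τ
    have hgp := hGW i j hij ω
    have h1 := hroot (lft ω).symm τ hτi hτj hτ ρ hρ _ hgp.2.2 (by
      change (u (mv ω (G i)) / u (mv ω (G j))) ^ p * evl v (mv ω (G j)) = evl v (mv ω (G i))
      rw [div_pow, hu, hu, div_mul_cancel₀ _ hgp.2.1])
    -- the constant
    have hfix : τ • ((mv ω (G i), mv ω (G j)) : (ι → kbar k' K) × (ι → kbar k' K)) =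
        (mv ω (G i), mv ω (G j)) := Prod.ext (funext hτi) (funext hτj)
    obtain ⟨h2, h3⟩ := hz _ hgp
    have h4 := h3 τ ρ hρ
    rw [hfix] at h4
    change ρ (u (mv ω (G i)) / u (mv ω (G j))) * _ = _ at h4
    rw [h1, mul_comm] at h4
    have h5 : u (mv ω (G i)) / u (mv ω (G j)) ≠ 0 :=
      div_ne_zero (u_ne hp' hu hgp.1) (u_ne hp' hu hgp.2.1)
    exact Subtype.ext (mul_right_cancel₀ h5 h4).symm

end

end Pool.Agent.SX
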