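import Pool.Agent.Helper13.BT.Lev

/-!
# Project SHARP: the constants attached to a curve with a section, for all exponents

As in project BERTINI, but `p` need not be prime, and the class `c` of the degree of the extension modulo `p` is
part of the data: the norm relation is about `α ^ c` for the roots `α` of `α ^ p = T`.
-/

universe u v

set_option linter.unusedSectionVars false

namespace Pool.Agent.SX

open Pool.Agent.PL Pool.Agent.Helper91.Sect Pool.Agent.BT

/-- The constants `z i j`: their Galois properties. -/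
structure LevZ {k C : Type u} [Field k] [Field C] [Algebra k C] (p c : ℕ) {d : ℕ} {ι κ : Type}
    (G : Fin d → ι → C) (W : κ → C) (T : k) (z : Fin d → Fin d → C) : Prop where
  ne : ∀ i j, i ≠ j → z i j ≠ 0
  pow : ∀ i j, i ≠ j → z i j ^ p ∈ IntermediateField.adjoin k
    (mu C p ∪ (Set.range (G i) ∪ Set.range (G j)))
  equi : ∀ (σ : C ≃ₐ[k] C) (i j i' j' : Fin d), i ≠ j → i' ≠ j' → (∀ q, σ (G i q) = G i' q) →
    (∀ q, σ (G j q) = G j' q) → σ (z i j) / z i' j' ∈ IntermediateField.adjoin k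
      (mu C p ∪ (Set.range (G i') ∪ Set.range (G j')))
  coc : ∀ i j l, i ≠ j → j ≠ l → i ≠ l → z i j * z j l / z i l ∈ IntermediateField.adjoin k
    (mu C p ∪ (Set.range (G i) ∪ Set.range (G j) ∪ Set.range (G l)))
  prod : ∀ α : C, α ^ p = algebraMap k C T → ∀ i, α ^ c / ∏ j ∈ Finset.univ.erase i, z j i ∈
    IntermediateField.adjoin k (mu C p ∪ ((⋃ j, Set.range (G j)) ∪ Set.range W))

/-- The property of the curve `f = rel = 0` that all certificates have constants `z i j`. -/
def HasLevV (k₁ : Type u) {k : Type u} (C : Type u) [Field k₁] [Field k] [Field C] [Algebra k₁ k]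
    [Algebra k C] (p c : ℕ) {N d : ℕ} (r : ℕ) {U : Type} [Fintype U] {e : U → ℕ}
    (f : MonV (N + 2) d → k) (rel : ∀ u, MonV (N + 2) (e u) → k) : Prop :=
  ∀ {n M : ℕ}, n ≤ M →
    ∀ {G : Fin d → MonV (N + 2) n → C} {W : MonV (N + 2) (r * n) → C} {a b : ℕ}
      {H : MonV (N + 2) a → C} {H' : U → MonV (N + 2) b → C} {T : k}, T ≠ 0 →
    ∏ i, pol (G i) = MvPolynomial.C (algebraMap k C T) * pol W ^ p +
      comb (fun q => algebraMap k C (f q)) (fun u q => algebraMap k C (rel u q)) H H' →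
    (∀ i j, i ≠ j → Cop (G i) (G j) (fun q => algebraMap k C (f q))
      (fun u q => algebraMap k C (rel u q)) M) →
    ∀ {M₂ M₂' M₃ : ℕ} {D : Fin d → MonV (N + 2) M₂ → C} {D' : Fin d → MonV (N + 2) M₂' → C}
      {D'' : Fin d → U → MonV (N + 2) M₂' → C} {c₀ : Fin d → Fin (M₃ + 1) → C},
      (∀ i, c₀ i ≠ 0) →
    (∀ i, pol (D i) * pol (G i) + comb (fun q => algebraMap k C (f q))
      (fun u q => algebraMap k C (rel u q)) (D' i) (D'' i) = polX (c₀ i)) →
    ∃ z : Fin d → Fin d → C, LevZ p c G W T z ∧ LevIV k₁ f rel G D c₀ z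

/-- A curve which maps to the curve `f = rel = 0`, over an extension whose degree is congruent to `c` modulo `p`
(`c < p`), with a Galois section. -/
def HasSecV {k : Type u} [Field k] (p c : ℕ) {N d : ℕ} {U : Type} {e : U → ℕ}
    (f : MonV (N + 2) d → k) (rel : ∀ u, MonV (N + 2) (e u) → k) : Prop :=
  ∃ (k' : Type u) (_ : Field k') (_ : Algebra k k'), FiniteDimensional k k' ∧
    Module.finrank k k' % p = c ∧ ∃ (K : Type u) (_ : Field K) (_ : Algebra k' K)
      (x : Fin (N + 2) → K), Transcendental k' (x 0) ∧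
      MvPolynomial.aeval x (pol fun q => algebraMap k k' (f q)) = 0 ∧
      (∀ u, MvPolynomial.aeval x (pol fun q => algebraMap k k' (rel u q)) = 0) ∧
      Nonempty (GaloisSection k' K)

theorem HasSecV.smul {k : Type u} [Field k] {p c₀ : ℕ} {N d : ℕ} {U : Type} {e : U → ℕ}
    {f : MonV (N + 2) d → k} {rel : ∀ u, MonV (N + 2) (e u) → k} (h : HasSecV p c₀ f rel) (c : k)
    (c' : U → k) : HasSecV p c₀ (fun q => c * f q) (fun u q => c' u * rel u q) := by
  obtain ⟨k', i1, i2, h1, h2, K, i3, i4, x, hx, hf, hrel, hs⟩ := h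
  refine ⟨k', i1, i2, h1, h2, K, i3, i4, x, hx, ?_, fun u => ?_, hs⟩
  · simp only [map_mul]
    rw [pol_smul, map_mul, hf, mul_zero]
  · simp only [map_mul]
    rw [pol_smul, map_mul, hrel, mul_zero]

end Pool.Agent.SX
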