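import Pool.Agent.Helper10.SX.A5
import Pool.Agent.Helper10.SX.Defs

/-!
# Project SHARP: the constants, for any linear system (all exponents)
-/

universe u

namespace Pool.Agent.SX

open Pool.Agent.BT Pool.Agent.PL Pool.Agent.Helper91.Sect Pool.Agent.LT Pool.Agent.SC Pool.Agent.GC
  Pool.Agent.Helper37.UL

variable {k k' K : Type u} [Field k] [CharZero k] [Field k'] [Field K]
  [Algebra k k'] [Algebra k' K]
  [Algebra k (kbar k' K)] [IsScalarTower k k' (kbar k' K)] [FiniteDimensional k k']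
  [Algebra.IsAlgebraic k (kbar k' K)] {ι κ : Type} [Fintype ι] [Fintype κ]

/-- **The constants attached to a Galois section over an extension `k'` of `k`**, for all exponents `p`.
All hypotheses are for the vectors moved by the isomorphisms `φ : C ≃ₐ[k] kbar`. -/
theorem exists_lev {p d r : ℕ} (hp : 0 < p) (hd : d = p * r)
    (s : GaloisSection k' K) {C : Type u} [Field C] [Algebra k C] [IsAlgClosure k C]
    {v : ι → K} {v' : κ → K} {G : Fin d → ι → C} {W : κ → C} {T : k} (hT : T ≠ 0)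
    (hG0 : ∀ (φ : C ≃ₐ[k] kbar k' K) i, evl v (fun q => φ (G i q)) ≠ 0)
    (hprod : ∀ φ : C ≃ₐ[k] kbar k' K, ∏ i, evl v (fun q => φ (G i q)) =
      ((algebraMap k (kbar k' K) T : kbar k' K) : AlgebraicClosure K) *
        evl v' (fun q => φ (W q)) ^ p)
    (hKur : ∀ (φ : C ≃ₐ[k] kbar k' K) i j, i ≠ j → ∀ w : AlgebraicClosure K,
      w ^ p * evl v (fun q => φ (G j q)) = evl v (fun q => φ (G i q)) → w ∈ Kur k' K) :
    ∃ z : Fin d → Fin d → C, LevZ p (Module.finrank k k' % p) G W T z ∧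
      ∀ V : ValuationSubring C, (p : C)⁻¹ ∈ V → ∀ i j, i ≠ j →
        (∀ (φ : C ≃ₐ[k] kbar k' K) (τ : Gk k' K), (∀ q, τ (φ (G i q)) = φ (G i q)) →
          (∀ q, τ (φ (G j q)) = φ (G j q)) →
          InInert (V.comap ((φ.symm : kbar k' K ≃+* C) : kbar k' K →+* C)) τ →
          ∀ ρ : AlgebraicClosure K ≃ₐ[K] AlgebraicClosure K, (∀ w : Kur k' K, ρ w = s.toHom τ w) →
          ∀ w ∈ Kur k' K, w ^ p * evl v (fun q => φ (G j q)) = evl v (fun q => φ (G i q)) →
            ρ w = w) →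
        ∀ σ : C ≃+* C, Inert (algebraMap k C).fieldRange V σ → (∀ q, σ (G i q) = G i q) →
          (∀ q, σ (G j q) = G j q) → σ (z i j) = z i j := by
  classical
  have hC1 : IsAlgClosed C := IsAlgClosure.isAlgClosed k
  have hK1 : IsAlgClosure k (kbar k' K) := ⟨inferInstance, inferInstance⟩
  let e : kbar k' K ≃ₐ[k] C := IsAlgClosure.equiv k (kbar k' K) C
  let e' : C ≃ₐ[k] kbar k' K := e.symm
  have hee' : ∀ w, e (e' w) = w := fun w => e.apply_symm_apply w
  have he'e : ∀ w, e' (e w) = w := fun w => e.symm_apply_apply w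
  let G' : Fin d → ι → kbar k' K := fun i q => e' (G i q)
  let W' : κ → kbar k' K := fun q => e' (W q)
  obtain ⟨z, z0, z1, z2, z3, z4, z5⟩ := lev_kbar hp hd s (v := v) (v' := v') (G := G')
    (W := W') hT (fun φ => hG0 (e'.trans φ)) (fun φ => hprod (e'.trans φ))
    (fun φ => hKur (e'.trans φ))
  -- images of the generators
  have himG : ∀ i q, e (G' i q) = G i q := fun i q => hee' _
  have himμ : ∀ ξ ∈ mu (kbar k' K) p, e ξ ∈ mu C p := by
    intro ξ hξ
    change e ξ ^ p = 1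
    rw [← map_pow, hξ, map_one]
  -- automorphisms
  have haut : ∀ σ : C ≃ₐ[k] C, ∃ τ : kbar k' K ≃ₐ[k] kbar k' K, ∀ w, e (τ w) = σ (e w) := by
    intro σ
    refine ⟨(e.trans σ).trans e.symm, fun w => ?_⟩
    change e (e.symm (σ (e w))) = _
    rw [AlgEquiv.apply_symm_apply]
  refine ⟨fun i j => e (z i j), ⟨?_, ?_, ?_, ?_, ?_⟩, ?_⟩
  · intro i j hij h0
    exact z0 i j hij ((map_eq_zero e).1 h0)
  · intro i j hij
    change e (z i j) ^ p ∈ _
    rw [← map_pow]
    refine map_mem_adjoin (e : kbar k' K →ₐ[k] C) ?_ (z1 i j hij)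
    rintro a (ha | ⟨q, rfl⟩ | ⟨q, rfl⟩)
    · exact Or.inl (himμ a ha)
    · exact Or.inr (Or.inl ⟨q, (himG i q).symm⟩)
    · exact Or.inr (Or.inr ⟨q, (himG j q).symm⟩)
  · intro σ i j i' j' hij hij' hi hj
    obtain ⟨τ, hτ⟩ := haut σ
    change σ (e (z i j)) / e (z i' j') ∈ _
    rw [← hτ, ← map_div₀]
    refine map_mem_adjoin (e : kbar k' K →ₐ[k] C) ?_ (z2 τ i j i' j' hij hij' ?_ ?_)
    · rintro a (ha | ⟨q, rfl⟩ | ⟨q, rfl⟩)
      · exact Or.inl (himμ a ha)
      · exact Or.inr (Or.inl ⟨q, (himG i' q).symm⟩)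
      · exact Or.inr (Or.inr ⟨q, (himG j' q).symm⟩)
    · intro q
      apply e.injective
      rw [hτ, himG, himG, hi]
    · intro q
      apply e.injective
      rw [hτ, himG, himG, hj]
  · intro i j l hij hjl hil
    change e (z i j) * e (z j l) / e (z i l) ∈ _
    rw [← map_mul, ← map_div₀]
    refine map_mem_adjoin (e : kbar k' K →ₐ[k] C) ?_ (z3 i j l hij hjl hil)
    rintro a (ha | (⟨q, rfl⟩ | ⟨q, rfl⟩) | ⟨q, rfl⟩)
    · exact Or.inl (himμ a ha)
    · exact Or.inr (Or.inl (Or.inl ⟨q, (himG i q).symm⟩))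
    · exact Or.inr (Or.inl (Or.inr ⟨q, (himG j q).symm⟩))
    · exact Or.inr (Or.inr ⟨q, (himG l q).symm⟩)
  · intro α hα i
    have h1 : e' α ^ p = algebraMap k (kbar k' K) T := by
      rw [← map_pow, hα]
      exact e'.commutes T
    have h2 := z4 (e' α) h1 i
    have h3 : α ^ (Module.finrank k k' % p) / ∏ j ∈ Finset.univ.erase i, e (z j i) =
        (e : kbar k' K →ₐ[k] C) (e' α ^ (Module.finrank k k' % p) /
          ∏ j ∈ Finset.univ.erase i, z j i) := by
      change _ = e (e' α ^ (Module.finrank k k' % p) / ∏ j ∈ Finset.univ.erase i, z j i)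
      rw [map_div₀, map_prod, map_pow, hee']
    change α ^ (Module.finrank k k' % p) / ∏ j ∈ Finset.univ.erase i, e (z j i) ∈ _
    rw [h3]
    refine map_mem_adjoin (e : kbar k' K →ₐ[k] C) ?_ h2
    rintro a (ha | ha | ⟨q, rfl⟩)
    · exact Or.inl (himμ a ha)
    · obtain ⟨j, q, rfl⟩ := Set.mem_iUnion.1 ha
      exact Or.inr (Or.inl (Set.mem_iUnion.2 ⟨j, q, (himG j q).symm⟩))
    · exact Or.inr (Or.inr ⟨q, (hee' _).symm⟩)
  · intro V hpinv i j hij hroot σ hσ hσi hσj
    let σ' : C ≃ₐ[k] C := AlgEquiv.ofRingEquiv (f := σ) (fun a => hσ.fix _ ⟨a, rfl⟩)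
    obtain ⟨τ, hτ⟩ := haut σ'
    replace hτ : ∀ w, e (τ w) = σ (e w) := hτ
    set V' : ValuationSubring (kbar k' K) := V.comap ((e : kbar k' K ≃+* C) : kbar k' K →+* C)
      with hV'
    have hmem : ∀ w : kbar k' K, w ∈ V' ↔ e w ∈ V := fun w => Iff.rfl
    have hlt : ∀ w : kbar k' K, V'.valuation w < 1 ↔ V.valuation (e w) < 1 := fun w =>
      comap_val_lt' (e : kbar k' K ≃+* C) V w
    have h1 := z5 V' (by rw [hmem, map_inv₀, map_natCast]; exact hpinv) i j hij
      (fun φ τ' hi hj hI ρ hρ w hw hwe => by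
        refine hroot (e'.trans φ) τ' hi hj ?_ ρ hρ w hw hwe
        have h2 : V.comap (((e'.trans φ).symm : kbar k' K ≃+* C) : kbar k' K →+* C) =
            V'.comap ((φ.symm : kbar k' K ≃+* kbar k' K) : kbar k' K →+* kbar k' K) := rfl
        rw [h2]
        exact hI) τ (fun w => by rw [hmem, hmem, hτ, hσ.dec]) (fun w hw => by
        rw [hlt, map_sub, hτ]
        exact hσ.res _ hw) (fun q => by
        apply e.injective
        rw [hτ, himG, hσi]) (fun q => by
        apply e.injective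
        rw [hτ, himG, hσj])
    change σ (e (z i j)) = e (z i j)
    rw [← hτ, h1]

end Pool.Agent.SX
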