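import Pool.Agent.Helper37.PC.Hahn

/-!
# Project SHARP: iterated Puiseux series with commuting automorphisms, for all exponents
-/

universe u

namespace Pool.Agent.SX

open HahnSeries Pool.Agent.PC

/-- a faithful character of `ℚ / ℤ` -/
theorem exists_chi {κ : Type u} [Field κ] [IsAlgClosed κ] [CharZero κ] :
    ∃ χ : ℚ → κ, χ 0 = 1 ∧ (∀ a b, χ (a + b) = χ a * χ b) ∧ χ 1 = 1 ∧
      (∀ a, χ a = 1 → ∃ n : ℤ, a = n) ∧ ∀ a, ∃ N : ℕ, 0 < N ∧ χ a ^ N = 1 := by
  set e : ℚ → ℂ := fun a => Complex.exp (2 * Real.pi * Complex.I * (a : ℂ)) with he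
  have h0 : e 0 = 1 := by simp [he]
  have hadd : ∀ a b, e (a + b) = e a * e b := by
    intro a b
    simp only [he]
    rw [← Complex.exp_add]
    congr 1
    push_cast
    ring
  have h1 : e 1 = 1 := by
    simp only [he]
    rw [Rat.cast_one, mul_one]
    exact Complex.exp_two_pi_mul_I
  have hpow : ∀ a (n : ℕ), e a ^ n = e (n * a) := by
    intro a n
    simp only [he]
    rw [← Complex.exp_nat_mul]
    congr 1
    push_cast
    ring
  have htor : ∀ a, ∃ N : ℕ, 0 < N ∧ e a ^ N = 1 := by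
    intro a
    refine ⟨a.den, a.den_pos, ?_⟩
    rw [hpow]
    have h2 : ((a.den : ℕ) : ℚ) * a = (a.num : ℚ) := by
      rw [mul_comm]
      exact Rat.mul_den_eq_num a
    rw [h2]
    simp only [he]
    rw [Complex.exp_eq_one_iff]
    exact ⟨a.num, by push_cast; ring⟩
  have hp1 : ∀ a, e a = 1 → ∃ n : ℤ, a = n := by
    intro a h
    simp only [he] at h
    rw [Complex.exp_eq_one_iff] at h
    obtain ⟨n, hn⟩ := h
    have h2 : (2 * Real.pi * Complex.I : ℂ) ≠ 0 := Complex.two_pi_I_ne_zero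
    have h3 : ((a : ℂ)) = n := by
      apply mul_left_cancel₀ h2
      rw [hn]
      ring
    exact ⟨n, by exact_mod_cast h3⟩
  have halg : ∀ a, IsAlgebraic ℚ (e a) := by
    intro a
    obtain ⟨N, hN, h⟩ := htor a
    refine ⟨Polynomial.X ^ N - 1, ?_, ?_⟩
    · exact Polynomial.X_pow_sub_C_ne_zero hN 1
    · simp [h]
  let A := algebraicClosure ℚ ℂ
  let ea : ℚ → A := fun a => ⟨e a, mem_algebraicClosure_iff.2 (halg a)⟩
  have hAalg : Algebra.IsAlgebraic ℚ A := algebraicClosure.isAlgebraic ℚ ℂ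
  let σ : A →ₐ[ℚ] κ := IsAlgClosed.lift
  have hinj : Function.Injective σ := σ.toRingHom.injective
  have hea : ∀ a, (ea a : ℂ) = e a := fun _ => rfl
  refine ⟨fun a => σ (ea a), ?_, ?_, ?_, ?_, ?_⟩
  · have h2 : ea 0 = 1 := Subtype.ext h0
    show σ (ea 0) = 1
    rw [h2, map_one]
  · intro a b
    have h2 : ea (a + b) = ea a * ea b := Subtype.ext (hadd a b)
    show σ (ea (a + b)) = _
    rw [h2, map_mul]
  · have h2 : ea 1 = 1 := Subtype.ext h1
    show σ (ea 1) = 1
    rw [h2, map_one]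
  · intro a h
    apply hp1
    have h2 : σ (ea a) = σ 1 := by rw [map_one]; exact h
    have h3 := congrArg (fun z : A => (z : ℂ)) (hinj h2)
    exact h3
  · intro a
    obtain ⟨N, hN, h⟩ := htor a
    refine ⟨N, hN, ?_⟩
    have h2 : ea a ^ N = 1 := Subtype.ext h
    show σ (ea a) ^ N = 1
    rw [← map_pow, h2, map_one]

/-- **HAHN.**  The field `A` of Puiseux series over `κ₁` in `t`, the field `S₁` of Puiseux series over
`A` in `ε`, the twist `τ` and the coefficientwise automorphisms. -/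
theorem exists_hahn (κ κ₁ : Type u) [Field κ] [Field κ₁] [Algebra κ κ₁] [IsAlgClosed κ]
    [IsAlgClosed κ₁] [CharZero κ] {p : ℕ} (hp : 0 < p) :
    ∃ (A S₁ : Type u) (_ : Field A) (_ : Field S₁) (cA : κ₁ →+* A) (lA : HahnSeries ℤ κ →+* A)
      (ψ : PowerSeries A →+* S₁) (τA : A ≃+* A) (τS : S₁ ≃+* S₁),
      IsAlgClosed S₁ ∧ Function.Injective ψ ∧ (∀ c : κ, lA (C c) = cA (algebraMap κ κ₁ c)) ∧
      (∀ {I : Type} [Fintype I] (l : I → HahnSeries ℤ κ) (m : I → κ₁), LinearIndependent κ m →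
        ∑ i, lA (l i) * cA (m i) = 0 → ∀ i, l i = 0) ∧
      (∀ c, τA (cA c) = cA c) ∧ (∀ l, τA (lA l) = lA l) ∧
      (∃ α : A, α ^ p = lA (single 1 1) ∧ ∀ c : ℕ, ¬ p ∣ c → τA (α ^ c) ≠ α ^ c) ∧
      (∀ z, τS (ψ z) = ψ (PowerSeries.map (τA : A →+* A) z)) ∧
      (∃ Q : Subfield S₁, (∀ z : PowerSeries κ₁, ψ (PowerSeries.map cA z) ∈ Q) ∧
        ∀ y, IsAlgebraic Q y → τS y = y) ∧
      ∀ ρ : κ₁ ≃+* κ₁, (∀ c : κ, ρ (algebraMap κ κ₁ c) = algebraMap κ κ₁ c) →
        ∃ (ρA : A ≃+* A) (ρS : S₁ ≃+* S₁), (∀ c, ρA (cA c) = cA (ρ c)) ∧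
          (∀ l, ρA (lA l) = lA l) ∧
          (∀ z, ρS (ψ z) = ψ (PowerSeries.map (ρA : A →+* A) z)) ∧
          ∀ y, τS (ρS y) = ρS (τS y) := by
  classical
  have hκ₁0 : CharZero κ₁ := charZero_of_injective_algebraMap (algebraMap κ κ₁).injective
  obtain ⟨P, hP, hPcl⟩ := exists_puis κ₁
  have hPac : IsAlgClosed P := hPcl inferInstance inferInstance
  have hH0 : CharZero (HahnSeries ℚ κ₁) := charZero_of_injective_ringHom
    (f := (C : κ₁ →+* HahnSeries ℚ κ₁)) C_injective
  have hP0 : CharZero P := inferInstance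
  obtain ⟨P', hP', hPcl'⟩ := exists_puis P
  have hPac' : IsAlgClosed P' := hPcl' hPac hP0
  -- integral exponents
  have hint : ∀ x : HahnSeries ℚ κ₁, (∀ a, x.coeff a ≠ 0 → ∃ n : ℤ, a = n) → x ∈ P := by
    intro x hx
    rw [hP]
    refine ⟨1, one_pos, fun a ha => ?_⟩
    obtain ⟨n, rfl⟩ := hx a ha
    exact ⟨n, by simp⟩
  have hint' : ∀ x : HahnSeries ℚ P, (∀ a, x.coeff a ≠ 0 → ∃ n : ℤ, a = n) → x ∈ P' := by
    intro x hx
    rw [hP']
    refine ⟨1, one_pos, fun a ha => ?_⟩
    obtain ⟨n, rfl⟩ := hx a ha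
    exact ⟨n, by simp⟩
  have hCcoeff : ∀ {K : Type u} [Field K] (c : K) (a : ℚ), (C c : HahnSeries ℚ K).coeff a ≠ 0 →
      ∃ n : ℤ, a = n := by
    intro K _ c a ha
    refine ⟨0, ?_⟩
    by_contra h
    apply ha
    rw [C_apply, coeff_single_of_ne]
    simpa using h
  let cA : κ₁ →+* P := (C : κ₁ →+* HahnSeries ℚ κ₁).codRestrict P.toSubring
    (fun c => hint _ (hCcoeff c))
  have hcA : ∀ c, ((cA c : P) : HahnSeries ℚ κ₁) = C c := fun _ => rfl
  let lA : HahnSeries ℤ κ →+* P := ((hmapHom (algebraMap κ κ₁)).comp (laur κ)).codRestrict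
    P.toSubring (fun l => hint _ (fun a ha => by
      change algebraMap κ κ₁ ((laur κ l).coeff a) ≠ 0 at ha
      exact laur_coeff_ne (fun h => ha (by rw [h, map_zero]))))
  have hlA : ∀ l a, ((lA l : P) : HahnSeries ℚ κ₁).coeff a =
      algebraMap κ κ₁ ((laur κ l).coeff a) := fun _ _ => rfl
  have hlAne : ∀ l a, ((lA l : P) : HahnSeries ℚ κ₁).coeff a ≠ 0 → ∃ n : ℤ, a = n := by
    intro l a ha
    rw [hlA] at ha
    exact laur_coeff_ne (fun h => ha (by rw [h, map_zero]))
  let ψ : PowerSeries P →+* P' := (ofPowerSeries ℚ P).codRestrict P'.toSubring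
    (fun z => hint' _ (fun a ha => by
      have h1 : a ∈ (ofPowerSeries ℚ P z).support := ha
      obtain ⟨n, -, hn⟩ := support_embDomain_subset h1
      exact ⟨n, by rw [← hn]; simp⟩))
  have hψ : ∀ z, ((ψ z : P') : HahnSeries ℚ P) = ofPowerSeries ℚ P z := fun _ => rfl
  have hofne : ∀ (z : PowerSeries P) (a : ℚ), (ofPowerSeries ℚ P z).coeff a ≠ 0 →
      ∃ n : ℕ, a = n := by
    intro z a ha
    have h1 : a ∈ (ofPowerSeries ℚ P z).support := ha
    obtain ⟨n, -, hn⟩ := support_embDomain_subset h1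
    exact ⟨n, by rw [← hn]; simp⟩
  -- coefficientwise automorphisms commute with the embedding of power series
  have hofmap : ∀ (f : P →+* P) (z : PowerSeries P) (a : ℚ),
      (ofPowerSeries ℚ P (PowerSeries.map f z)).coeff a = f ((ofPowerSeries ℚ P z).coeff a) := by
    intro f z a
    by_cases ha : ∃ n : ℕ, a = n
    · obtain ⟨n, rfl⟩ := ha
      rw [ofPowerSeries_apply_coeff, ofPowerSeries_apply_coeff, PowerSeries.coeff_map]
    · have h1 : (ofPowerSeries ℚ P (PowerSeries.map f z)).coeff a = 0 := by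
        by_contra h
        exact ha (hofne _ _ h)
      have h2 : (ofPowerSeries ℚ P z).coeff a = 0 := by
        by_contra h
        exact ha (hofne _ _ h)
      rw [h1, h2, map_zero]
  -- the twist
  obtain ⟨χ, hχ0, hχadd, hχ1, hχp, hχN⟩ := exists_chi (κ := κ)
  obtain ⟨Rt, hRt⟩ := exists_twist (κ := κ₁) (fun a => algebraMap κ κ₁ (χ a))
    (by rw [hχ0, map_one]) (fun a b => by rw [hχadd, map_mul])
  have hχne : ∀ a, algebraMap κ κ₁ (χ a) ≠ 0 := by
    intro a h
    have h1 := hχadd a (-a)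
    rw [add_neg_cancel, hχ0] at h1
    rw [map_eq_zero] at h
    rw [h, zero_mul] at h1
    exact one_ne_zero h1
  have hχint : ∀ n : ℤ, χ n = 1 := by
    intro n
    induction n using Int.induction_on with
    | zero => simpa using hχ0
    | succ n ih =>
      have h1 : (((n : ℤ) + 1 : ℤ) : ℚ) = ((n : ℤ) : ℚ) + 1 := by push_cast; ring
      rw [h1, hχadd, ih, hχ1, one_mul]
    | pred n ih =>
      have h1 : (((-(n : ℤ)) : ℤ) : ℚ) = (((-(n : ℤ) - 1 : ℤ)) : ℚ) + 1 := by push_cast; ring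
      have h2 := hχadd (((-(n : ℤ) - 1 : ℤ)) : ℚ) 1
      rw [← h1, ih, hχ1, mul_one] at h2
      exact h2.symm
  obtain ⟨τA, hτA⟩ := exists_restr hP Rt (fun x a => by
    rw [hRt]
    exact ⟨fun h h0 => h (by rw [h0, mul_zero]), fun h => mul_ne_zero (hχne a) h⟩)
  obtain ⟨Rτ, hRτ⟩ := exists_hmap τA
  obtain ⟨τS, hτS⟩ := exists_restr hP' Rτ (fun x a => by
    rw [hRτ]
    exact (map_ne_zero_iff _ τA.injective))
  -- fixed elements
  have hτc : ∀ c, τA (cA c) = cA c := by
    intro c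
    apply Subtype.ext
    rw [hτA]
    ext a
    rw [hRt, hcA]
    by_cases ha : a = 0
    · rw [ha, hχ0, map_one, one_mul]
    · rw [C_apply, coeff_single_of_ne ha, mul_zero]
  have hτl : ∀ l, τA (lA l) = lA l := by
    intro l
    apply Subtype.ext
    rw [hτA]
    ext a
    rw [hRt]
    by_cases ha : ((lA l : P) : HahnSeries ℚ κ₁).coeff a = 0
    · rw [ha, mul_zero]
    · obtain ⟨n, rfl⟩ := hlAne l a ha
      rw [hχint, map_one, one_mul]
  refine ⟨P, P', inferInstance, inferInstance, cA, lA, ψ, τA, τS, hPac', ?_, ?_, ?_, hτc, hτl, ?_,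
    ?_, ?_, ?_⟩
  · intro z z' hz
    exact ofPowerSeries_injective (congrArg (fun y : P' => (y : HahnSeries ℚ P)) hz)
  · intro c
    apply Subtype.ext
    change hmapHom (algebraMap κ κ₁) (laur κ (C c)) = C (algebraMap κ κ₁ c)
    rw [laur_C]
    ext a
    rw [hmapHom_coeff]
    by_cases ha : a = 0
    · rw [ha, C_apply, C_apply, coeff_single_same, coeff_single_same]
    · rw [C_apply, C_apply, coeff_single_of_ne ha, coeff_single_of_ne ha, map_zero]
  · intro I _ l m hm hsum i
    ext n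
    have h1 : ∑ i, (l i).coeff n • m i = 0 := by
      have h2 := congrArg (fun y : P => (y : HahnSeries ℚ κ₁).coeff (n : ℚ)) hsum
      simp only [AddSubmonoidClass.coe_finsetSum] at h2
      rw [HahnSeries.coeff_sum] at h2
      simp only [ZeroMemClass.coe_zero, HahnSeries.coeff_zero] at h2
      rw [← h2]
      refine Finset.sum_congr rfl fun j _ => ?_
      rw [MulMemClass.coe_mul, hcA, mul_comm, C_mul_eq_smul, coeff_smul, hlA, laur_coeff,
        smul_eq_mul, Algebra.smul_def, mul_comm]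
    have h3 := Fintype.linearIndependent_iff.1 hm (fun i => (l i).coeff n) h1 i
    rw [h3, coeff_zero]
  · -- the root
    have hα : (single (1 / (p : ℚ)) 1 : HahnSeries ℚ κ₁) ∈ P := by
      rw [hP]
      refine ⟨p, hp, fun a ha => ⟨1, ?_⟩⟩
      have h1 : a = 1 / (p : ℚ) := by
        by_contra h
        exact ha (coeff_single_of_ne h)
      rw [h1, one_div, inv_mul_cancel₀]
      · simp
      · exact_mod_cast hp.ne'
    refine ⟨⟨_, hα⟩, ?_, ?_⟩
    · apply Subtype.ext
      change (single (1 / (p : ℚ)) 1 : HahnSeries ℚ κ₁) ^ p = hmapHom (algebraMap κ κ₁)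
        (laur κ (single 1 1))
      rw [laur_single, single_pow, one_pow, nsmul_eq_mul, mul_one_div_cancel]
      · ext a
        rw [hmapHom_coeff]
        by_cases ha : a = 1
        · rw [ha, coeff_single_same, coeff_single_same, map_one]
        · rw [coeff_single_of_ne ha, coeff_single_of_ne ha, map_zero]
      · exact_mod_cast hp.ne'
    · intro c hc h
      have h0 : ∀ c : ℕ, (single (1 / (p : ℚ)) 1 : HahnSeries ℚ κ₁) ^ c = single ((c : ℚ) / p) 1 := by
        intro c
        rw [single_pow, one_pow, nsmul_eq_mul, mul_one_div]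
      have h1 := congrArg (fun y : P => (y : HahnSeries ℚ κ₁).coeff ((c : ℚ) / p)) h
      simp only [hτA, hRt, SubmonoidClass.coe_pow, h0, coeff_single_same, mul_one] at h1
      have h2 : χ ((c : ℚ) / p) = 1 := by
        apply (algebraMap κ κ₁).injective
        rw [h1, map_one]
      obtain ⟨n, hn⟩ := hχp _ h2
      have hp0 : (p : ℚ) ≠ 0 := by exact_mod_cast hp.ne'
      rw [div_eq_iff hp0] at hn
      have h3 : (c : ℤ) = n * p := by exact_mod_cast hn
      exact hc (Int.natCast_dvd_natCast.1 ⟨n, by rw [h3, mul_comm]⟩)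
  · intro z
    apply Subtype.ext
    rw [hτS, hψ, hψ]
    ext1
    funext a
    rw [hRτ, hofmap]
    rfl
  · -- the algebraic closure of the power series with constant coefficients
    let J : P →+* P' := ((hmapHom cA).comp P.subtype).codRestrict P'.toSubring (fun x => by
      change hmapHom cA (x : HahnSeries ℚ κ₁) ∈ P'
      rw [hP']
      obtain ⟨N, hN, hx⟩ := (hP _).1 x.2
      refine ⟨N, hN, fun a ha => hx a ?_⟩
      intro h0
      apply ha
      change cA ((x : HahnSeries ℚ κ₁).coeff a) = 0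
      rw [h0, map_zero])
    refine ⟨J.fieldRange, ?_, ?_⟩
    · intro z
      have hz : (ofPowerSeries ℚ κ₁ z) ∈ P := by
        refine hint _ fun a ha => ?_
        have h1 : a ∈ (ofPowerSeries ℚ κ₁ z).support := ha
        obtain ⟨n, -, hn⟩ := support_embDomain_subset h1
        exact ⟨n, by rw [← hn]; simp⟩
      refine ⟨⟨_, hz⟩, ?_⟩
      apply Subtype.ext
      change hmapHom cA (ofPowerSeries ℚ κ₁ z) = ofPowerSeries ℚ P (PowerSeries.map cA z)
      ext1
      funext a
      change cA ((ofPowerSeries ℚ κ₁ z).coeff a) = _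
      by_cases ha : ∃ n : ℕ, a = n
      · obtain ⟨n, rfl⟩ := ha
        rw [ofPowerSeries_apply_coeff, ofPowerSeries_apply_coeff, PowerSeries.coeff_map]
      · have h1 : (ofPowerSeries ℚ P (PowerSeries.map cA z)).coeff a = 0 := by
          by_contra h
          exact ha (hofne _ _ h)
        have h2 : (ofPowerSeries ℚ κ₁ z).coeff a = 0 := by
          by_contra h
          apply ha
          have h3 : a ∈ (ofPowerSeries ℚ κ₁ z).support := h
          obtain ⟨n, -, hn⟩ := support_embDomain_subset h3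
          exact ⟨n, by rw [← hn]; simp⟩
        rw [h1, h2, map_zero]
    · intro y hy
      obtain ⟨x, rfl⟩ := mem_range_of_alg J hy
      apply Subtype.ext
      rw [hτS]
      ext1
      funext a
      rw [hRτ]
      exact hτc _
  · -- coefficientwise automorphisms
    intro ρ hρ
    obtain ⟨R1, hR1⟩ := exists_hmap ρ
    obtain ⟨ρA, hρA⟩ := exists_restr hP R1 (fun x a => by
      rw [hR1]
      exact (map_ne_zero_iff _ ρ.injective))
    obtain ⟨R2, hR2⟩ := exists_hmap ρA
    obtain ⟨ρS, hρS⟩ := exists_restr hP' R2 (fun x a => by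
      rw [hR2]
      exact (map_ne_zero_iff _ ρA.injective))
    refine ⟨ρA, ρS, ?_, ?_, ?_, ?_⟩
    · intro c
      apply Subtype.ext
      rw [hρA]
      ext a
      rw [hR1, hcA, hcA]
      by_cases ha : a = 0
      · rw [ha, C_apply, C_apply, coeff_single_same, coeff_single_same]
      · rw [C_apply, C_apply, coeff_single_of_ne ha, coeff_single_of_ne ha, map_zero]
    · intro l
      apply Subtype.ext
      rw [hρA]
      ext a
      rw [hR1, hlA, hρ]
    · intro z
      apply Subtype.ext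
      rw [hρS, hψ, hψ]
      ext1
      funext a
      rw [hR2, hofmap]
      rfl
    · intro y
      have hcomm : ∀ x : P, τA (ρA x) = ρA (τA x) := by
        intro x
        apply Subtype.ext
        rw [hτA, hρA, hρA, hτA]
        ext a
        rw [hRt, hR1, hR1, hRt, map_mul, hρ]
      apply Subtype.ext
      rw [hτS, hρS, hρS, hτS]
      ext1
      funext a
      rw [hRτ, hR2, hR2, hRτ, hcomm]

end Pool.Agent.SX
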