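import Pool.Agent.Helper10.BT.Lin

/-!
# Project SHARP: the linearised equation is surjective (all exponents)
-/

universe u v

namespace Pool.Agent.SX

open MvPolynomial Pool.Agent.BT

/-- block L1 with slack, in two variables (all exponents) -/
theorem surj_slack {A : Type u} [Field A] [CharZero A] {d p r m s : ℕ} (hp : 0 < p)
    (hd : d = p * r) (hd0 : 0 < d) (hm : d + s ≤ m + 1) {T : A} (hT : T ≠ 0) {γ : Fin d → A}
    (hγ : Function.Injective γ) (hγ1 : ∀ i j, γ i ≠ γ j + 1) (F : MvPolynomial (Fin 2) A)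
    (hF : F.totalDegree ≤ d * (1 + p * m) - s) :
    ∃ (g : Fin d → MvPolynomial (Fin 2) A) (u h : MvPolynomial (Fin 2) A),
      (∀ i, (g i).totalDegree ≤ 1 + p * m - s) ∧ u.totalDegree ≤ r * (1 + p * m) - s ∧
      h.totalDegree ≤ d * (p * m) - s ∧
      F = ∑ i, g i * ∏ j ∈ Finset.univ.erase i, PC.G0 p m (γ j) -
        (p : MvPolynomial (Fin 2) A) * C T * u * PC.W0 r m γ ^ (p - 1) - h * PC.f0 γ T := by
  classical
  obtain ⟨F', hF', rfl⟩ := PC.exists_conv hF
  have hdp : d / p = r := by rw [hd]; exact Nat.mul_div_cancel_left _ hp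
  obtain ⟨δG, δW, δH, h1, h2, h3, h4⟩ := PL.linearised_slack hd0 hm hp ⟨r, hd⟩ hγ
    (fun i j h => hγ1 j i h.symm) (one_ne_zero (α := A)) hT
    (Nat.cast_ne_zero.mpr hp.ne') F' hF'
  rw [hdp] at h2
  rw [show p * (d * m) = d * (p * m) by ring] at h3
  have hX1 : ∀ a : A, PC.conv A (Polynomial.C (Polynomial.X - Polynomial.C a)) = X 1 - C a := by
    intro a
    rw [Polynomial.C_sub, map_sub, PC.conv_CX, PC.conv_CC]
  have hX2 : ∀ a : A, PC.conv A (Polynomial.C (Polynomial.X - Polynomial.C (a + 1))) =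
      X 1 - C a - 1 := by
    intro a
    rw [hX1, C_add, C_1, sub_sub]
  have hPP : ∀ a : A, PC.conv A (Polynomial.C (PL.PP a (p * m))) = PC.G0 p m a := by
    intro a
    rw [PL.PP, Polynomial.C_mul, Polynomial.C_pow, map_mul, map_pow, hX1, hX2, PC.G0]
  have hW : PC.conv A (PL.W0 γ m p) = PC.W0 r m γ := by
    rw [PL.W0, hdp, map_mul, map_pow, PC.conv_X, map_prod, map_prod, PC.W0, mul_comm]
    congr 1
    refine Finset.prod_congr rfl fun j _ => ?_
    rw [Polynomial.C_pow, map_pow, hX2]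
  have hf : PC.conv A (PL.f0 γ 1 T) = PC.f0 γ T := by
    rw [PL.f0, Polynomial.C_1, one_mul, map_sub, map_prod, map_prod, map_mul, map_pow, PC.conv_X,
      PC.conv_CC, PC.f0]
    congr 1
    refine Finset.prod_congr rfl fun j _ => ?_
    rw [hX1]
  refine ⟨fun i => PC.conv A (δG i), PC.conv A δW, PC.conv A δH,
    fun i => PC.totalDegree_conv (h1 i), PC.totalDegree_conv h2, PC.totalDegree_conv h3, ?_⟩
  rw [h4, Polynomial.C_1, Polynomial.C_1, one_mul, map_sub, map_sub, map_sum, map_mul, map_mul,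
    map_mul, map_pow, hW, map_mul (PC.conv A) δH, hf, ← Polynomial.C_mul, PC.conv_CC]
  congr 2
  · refine Finset.sum_congr rfl fun i _ => ?_
    rw [map_mul, map_prod]
    congr 1
    exact Finset.prod_congr rfl fun j _ => hPP _
  · rw [C_mul, map_natCast C, mul_comm (C T)]

/-- **The linearised equation of the family is solvable.** -/
theorem surj_fam {A : Type u} [Field A] [CharZero A] {N d p r m c : ℕ} {U : Type} [Fintype U]
    {e : U → ℕ} (hp : 0 < p) (hd : d = p * r) (hd0 : 0 < d) (hm : d + c ≤ m) {T : A} (hT : T ≠ 0)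
    {γ : Fin d → A} (hγ : Function.Injective γ) (hγ1 : ∀ i j, γ i ≠ γ j + 1)
    {rel : ∀ u, MonV (N + 2) (e u) → A} (hrel : Noe rel c) (F : MvPolynomial (Fin (N + 2)) A)
    (hF : F.totalDegree ≤ d * (1 + p * m)) :
    ∃ (g : Fin d → MvPolynomial (Fin (N + 2)) A) (u h : MvPolynomial (Fin (N + 2)) A)
      (b : U → MvPolynomial (Fin (N + 2)) A),
      (∀ i, (g i).totalDegree ≤ 1 + p * m) ∧ u.totalDegree ≤ r * (1 + p * m) ∧
      h.totalDegree ≤ d * (p * m) ∧
      (∀ u, b u ≠ 0 → (b u).totalDegree + e u ≤ d * (1 + p * m)) ∧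
      F = ∑ i, g i * ∏ j ∈ Finset.univ.erase i, inc N (PC.G0 p m (γ j)) -
        (p : MvPolynomial (Fin (N + 2)) A) * C T * u * inc N (PC.W0 r m γ) ^ (p - 1) -
        h * inc N (PC.f0 γ T) - ∑ u, b u * pol (rel u) := by
  classical
  obtain ⟨a, b, ha, hb, hFe⟩ := hrel _ F hF
  have hr1 : 1 ≤ r := by
    rcases Nat.eq_zero_or_pos r with h | h
    · rw [h, mul_zero] at hd; omega
    · exact h
  have hmp : m ≤ p * m := Nat.le_mul_of_pos_left m hp
  -- one term
  have hterm : ∀ s : MonV (N + 2) c, ∃ (g : Fin d → MvPolynomial (Fin 2) A)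
      (u h : MvPolynomial (Fin 2) A),
      (∀ i, (g i).totalDegree ≤ 1 + p * m - s.1.degree) ∧
      u.totalDegree ≤ r * (1 + p * m) - s.1.degree ∧
      h.totalDegree ≤ d * (p * m) - s.1.degree ∧
      a s = ∑ i, g i * ∏ j ∈ Finset.univ.erase i, PC.G0 p m (γ j) -
        (p : MvPolynomial (Fin 2) A) * C T * u * PC.W0 r m γ ^ (p - 1) - h * PC.f0 γ T := by
    intro s
    refine surj_slack hp hd hd0 ?_ hT hγ hγ1 (a s) ?_
    · have := s.2
      omega
    · by_cases h0 : a s = 0
      · rw [h0, totalDegree_zero]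
        exact Nat.zero_le _
      · have := ha s h0
        omega
  choose g u h hg hu hh hgu using hterm
  have hs1 : ∀ s : MonV (N + 2) c, s.1.degree ≤ 1 + p * m := fun s => by
    have := s.2
    omega
  have hs2 : ∀ s : MonV (N + 2) c, s.1.degree ≤ r * (1 + p * m) := fun s =>
    (hs1 s).trans (Nat.le_mul_of_pos_left _ hr1)
  have hs3 : ∀ s : MonV (N + 2) c, s.1.degree ≤ d * (p * m) := fun s => by
    have h1 := s.2
    have h2 : p * m ≤ d * (p * m) := Nat.le_mul_of_pos_left _ hd0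
    omega
  refine ⟨fun i => ∑ s, inc N (g s i) * monomial s.1 1, ∑ s, inc N (u s) * monomial s.1 1,
    ∑ s, inc N (h s) * monomial s.1 1, fun u => -b u, fun i => ?_, ?_, ?_, fun u hu => ?_, ?_⟩
  · exact totalDegree_finsetSum_le fun s _ => totalDegree_inc_mul_le rfl (hs1 s) (hg s i)
  · exact totalDegree_finsetSum_le fun s _ => totalDegree_inc_mul_le rfl (hs2 s) (hu s)
  · exact totalDegree_finsetSum_le fun s _ => totalDegree_inc_mul_le rfl (hs3 s) (hh s)
  · rw [totalDegree_neg]
    exact hb u (neg_ne_zero.1 hu)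
  · rw [hFe]
    have h1 : ∀ s : MonV (N + 2) c, inc N (a s) * monomial s.1 1 =
        ∑ i, (inc N (g s i) * monomial s.1 1) *
          ∏ j ∈ Finset.univ.erase i, inc N (PC.G0 p m (γ j)) -
        (p : MvPolynomial (Fin (N + 2)) A) * C T * (inc N (u s) * monomial s.1 1) *
          inc N (PC.W0 r m γ) ^ (p - 1) -
        (inc N (h s) * monomial s.1 1) * inc N (PC.f0 γ T) := by
      intro s
      rw [hgu s, map_sub, map_sub, map_sum, map_mul, map_mul, map_mul, map_mul, map_pow,
        inc_C, map_natCast]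
      have h2 : ∀ i, inc N (g s i * ∏ j ∈ Finset.univ.erase i, PC.G0 p m (γ j)) =
          inc N (g s i) * ∏ j ∈ Finset.univ.erase i, inc N (PC.G0 p m (γ j)) := by
        intro i
        rw [map_mul, map_prod]
      rw [Finset.sum_congr rfl fun i _ => h2 i, sub_mul, sub_mul, Finset.sum_mul]
      congr 1
      · congr 1
        · exact Finset.sum_congr rfl fun i _ => by ring
        · ring
      · ring
    rw [Finset.sum_congr rfl fun s _ => h1 s, Finset.sum_sub_distrib, Finset.sum_sub_distrib]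
    have h3 : ∑ s : MonV (N + 2) c, ∑ i, (inc N (g s i) * monomial s.1 1) *
        ∏ j ∈ Finset.univ.erase i, inc N (PC.G0 p m (γ j)) =
        ∑ i, (∑ s : MonV (N + 2) c, inc N (g s i) * monomial s.1 1) *
          ∏ j ∈ Finset.univ.erase i, inc N (PC.G0 p m (γ j)) := by
      rw [Finset.sum_comm]
      exact Finset.sum_congr rfl fun i _ => by rw [Finset.sum_mul]
    rw [h3]
    simp only [neg_mul, Finset.sum_neg_distrib, sub_neg_eq_add, Finset.mul_sum, Finset.sum_mul]

end Pool.Agent.SX
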