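import Pool.Agent.Helper10.BT.Spec
import Pool.Agent.Helper10.SX.Lin

/-!
# Project SHARP: the surjectivity of the derivative (all exponents)
-/

universe u v

namespace Pool.Agent.SX

open MvPolynomial Pool.Agent.BT

section Surj

variable {A : Type u} [Field A] {N d p r m c : ℕ} {U : Type}

theorem JJ_surj [CharZero A] [Fintype U] {e : U → ℕ} (hp : 0 < p) (hd : d = p * r) (hd0 : 0 < d)
    (hm : d + c ≤ m) {T : A} (hT : T ≠ 0) {γ : Fin d → A} (hγ : Function.Injective γ)
    (hγ1 : ∀ i j, γ i ≠ γ j + 1) {f : MonV (N + 2) d → A} {rel : ∀ u, MonV (N + 2) (e u) → A}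
    (hf : pol f = inc N (PC.f0 γ T)) (hrel : Noe rel c)
    (F : MvPolynomial (Fin (N + 2)) A) (hF : F.totalDegree ≤ d * (1 + p * m)) :
    ∃ δ, JJ (eO d e) p γ T (relO f rel) (z0 N p r m U γ) δ = F := by
  classical
  obtain ⟨g, u, h, b, hg, hu, hh, hb, heq⟩ := surj_fam hp hd hd0 hm hT hγ hγ1 hrel F hF
  obtain ⟨δ, hδ⟩ := exists_GG (a := 1 + p * m) (by
    have := Nat.le_mul_of_pos_left m hp
    omega) hγ g hg
  have hmul : d * (1 + p * m) = d * (p * m) + d := by ring
  let H : Option U → MvPolynomial (Fin (N + 2)) A := fun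
    | none => h
    | some v => b v
  have hH : ∀ v, H v = 0 ∨ (H v).totalDegree + eO d e v ≤ d * (1 + p * m) := by
    rintro (_ | v)
    · right
      change h.totalDegree + d ≤ _
      omega
    · by_cases h0 : b v = 0
      · exact Or.inl h0
      · exact Or.inr (hb v h0)
  let Δ : Unk (N + 2) (1 + p * m) (r * (1 + p * m)) (d * (1 + p * m)) (Option U) → A :=
    Sum.elim δ (Sum.elim (cf _ u) fun vq => cf _ (H vq.1) vq.2)
  refine ⟨Δ, ?_⟩
  have h1 : ∀ i, pol (GG γ Δ i) = g i := fun i => hδ i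
  have h2 : pol (WW Δ) = u := pol_cf hu
  have h3 : ∀ v, pol (HH (eO d e) Δ v) = H v := by
    intro v
    rcases hH v with h0 | h0
    · have h4 : HH (eO d e) Δ v = fun _ => 0 := by
        funext q
        change (if q.1.degree + eO d e v ≤ d * (1 + p * m) then cf _ (H v) q else 0) = 0
        rw [h0]
        simp [cf]
      rw [h4, pol_zero, h0]
    · rw [← pol_cf (show (H v).totalDegree ≤ d * (1 + p * m) by omega)]
      congr 1
      funext q
      change (if q.1.degree + eO d e v ≤ d * (1 + p * m) then cf _ (H v) q else 0) = _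
      split_ifs with h4
      · rfl
      · rw [cf_apply, totalDegree_le_iff.1 (le_refl (H v).totalDegree) q.1 (by omega)]
  rw [heq, JJ, pol_WW_z0 hd, h2, Fintype.sum_option, h3]
  simp only [pol_GG_z0, h1, h3]
  change _ - (h * pol f + ∑ x, b x * pol (rel x)) = _
  rw [hf]
  ring

end Surj

end Pool.Agent.SX
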