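import Pool.Agent.Helper10.BT.Dual
import Pool.Agent.Helper10.SX.Spec

/-!
# Project SHARP: block SOL (all exponents)
-/

universe u v

namespace Pool.Agent.SX

open MvPolynomial Pool.Agent.BT

section Sol

variable {A : Type u} [Field A] [CharZero A] {N d p r m c : ℕ} {U : Type} [Fintype U] {e : U → ℕ}

open PowerSeries in
/-- the system of equations for the chosen unknowns -/
theorem exists_sys (hp : 0 < p) (hd : d = p * r) (hd0 : 0 < d) (hm : d + c ≤ m) {T : A}
    (hT : T ≠ 0) {γ : Fin d → A} (hγ : Function.Injective γ) (hγ1 : ∀ i j, γ i ≠ γ j + 1)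
    (f : MonV (N + 2) d → PowerSeries A) (rel : ∀ u, MonV (N + 2) (e u) → PowerSeries A)
    (hf : pol (fun q => PowerSeries.constantCoeff (f q)) = inc N (PC.f0 γ T))
    (hrel : Noe (fun u q => PowerSeries.constantCoeff (rel u q)) c) :
    ∃ (κ : Type) (_ : Fintype κ) (a : κ → Unk (N + 2) (1 + p * m) (r * (1 + p * m)) (d * (1 + p * m)) (Option U))
      (M : MonV (N + 2) (d * (1 + p * m)) → κ → A) (Nm : κ → MonV (N + 2) (d * (1 + p * m)) → A),
      Function.Injective a ∧ PL.Sys
        (fun y => cf (d * (1 + p * m)) (EE (eO d e) p (fun i => PowerSeries.C (γ i))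
          (PowerSeries.C T) (relO f rel) fun u => PowerSeries.C (z0 N p r m U γ u) + PC.ex a y u))
        (fun y δ => cf (d * (1 + p * m)) (JJ (eO d e) p (fun i => PowerSeries.C (γ i))
          (PowerSeries.C T) (relO f rel) (fun u => PowerSeries.C (z0 N p r m U γ u) + PC.ex a y u) (PC.ex a δ)))
        (fun _ => 0) M Nm := by
  classical
  set Nn := d * (1 + p * m) with hNn
  set F0 : Option U → MvPolynomial (Fin (N + 2)) A :=
    relO (fun q => PowerSeries.constantCoeff (f q)) (fun u q => PowerSeries.constantCoeff (rel u q))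
    with hF0
  -- the linear map
  let L : (Unk (N + 2) (1 + p * m) (r * (1 + p * m)) (d * (1 + p * m)) (Option U) → A) →ₗ[A] (MonV (N + 2) Nn → A) :=
    { toFun := fun δ => cf Nn (JJ (eO d e) p γ T F0 (z0 N p r m U γ) δ)
      map_add' := fun δ δ' => by
        have h1 := (JJl (eO d e) p γ T F0 (z0 N p r m U γ)).map_add δ δ'
        change cf Nn ((JJl (eO d e) p γ T F0 (z0 N p r m U γ)) (δ + δ')) = _
        rw [h1, cf_add]
        rfl
      map_smul' := fun a δ => by
        have h1 := (JJl (eO d e) p γ T F0 (z0 N p r m U γ)).map_smul a δ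
        change cf Nn ((JJl (eO d e) p γ T F0 (z0 N p r m U γ)) (a • δ)) = _
        rw [h1, MvPolynomial.smul_eq_C_mul]
        funext q
        rw [cf_C_mul]
        rfl }
  have hL : Function.Surjective L := by
    intro e₁
    obtain ⟨δ, hδ⟩ := JJ_surj hp hd hd0 hm hT hγ hγ1 hf hrel (pol e₁) (totalDegree_pol_le e₁)
    refine ⟨δ, ?_⟩
    change cf Nn (JJ (eO d e) p γ T F0 (z0 N p r m U γ) δ) = e₁
    rw [hδ, cf_pol]
  -- the basis
  let v : Unk (N + 2) (1 + p * m) (r * (1 + p * m)) (d * (1 + p * m)) (Option U) → (MonV (N + 2) Nn → A) :=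
    fun u => L fun b => if u = b then 1 else 0
  obtain ⟨κ, a, ha, hsp, hli⟩ := exists_linearIndependent' A v
  have hfin : Finite κ := Finite.of_injective a ha
  let _ : Fintype κ := Fintype.ofFinite κ
  have htop : ⊤ ≤ Submodule.span A (Set.range (v ∘ a)) := by
    rw [hsp]
    rintro e₁ -
    obtain ⟨δ, rfl⟩ := hL e₁
    rw [L.pi_apply_eq_sum_univ δ]
    refine Submodule.sum_mem _ fun u _ => Submodule.smul_mem _ _ (Submodule.subset_span ⟨u, ?_⟩)
    change L _ = L _
    congr 1
    funext b
    split_ifs <;> rfl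
  let bs : Module.Basis κ A (MonV (N + 2) Nn → A) := Module.Basis.mk hli htop
  have hbs : ∀ b, bs b = v (a b) := fun b => by
    rw [Module.Basis.mk_apply]
    rfl
  let M : MonV (N + 2) Nn → κ → A := fun q b => v (a b) q
  let Nm : κ → MonV (N + 2) Nn → A := fun b q => bs.repr (Pi.single q 1) b
  have hMN : ∀ q q', ∑ b, M q b * Nm b q' = if q = q' then 1 else 0 := by
    intro q q'
    have h1 := congrFun (bs.sum_repr (Pi.single q' 1)) q
    rw [Finset.sum_apply] at h1
    rw [show (if q = q' then (1 : A) else 0) = (Pi.single q' 1 : MonV (N + 2) Nn → A) q by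
      rw [Pi.single_apply], ← h1]
    refine Finset.sum_congr rfl fun b _ => ?_
    rw [Pi.smul_apply, hbs, smul_eq_mul, mul_comm]
  have hNM : ∀ b b', ∑ q, Nm b q * M q b' = if b = b' then 1 else 0 := by
    intro b b'
    have h1 : bs.repr (v (a b')) b = if b = b' then 1 else 0 := by
      rw [← hbs, bs.repr_self, Finsupp.single_apply]
      simp only [eq_comm]
    rw [← h1]
    have h2 : v (a b') = ∑ q, M q b' • (Pi.single q 1 : MonV (N + 2) Nn → A) := by
      funext q
      rw [Finset.sum_apply, Finset.sum_eq_single q]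
      · simp [M]
      · intro q' _ hq'
        rw [Pi.smul_apply, Pi.single_eq_of_ne hq'.symm, smul_zero]
      · intro h
        exact absurd (Finset.mem_univ q) h
    rw [h2, map_sum, Finsupp.finsetSum_apply]
    refine Finset.sum_congr rfl fun q _ => ?_
    rw [map_smul, Finsupp.smul_apply, smul_eq_mul, mul_comm]
  have hFmap : (fun u => map PowerSeries.constantCoeff (relO f rel u)) = F0 := by
    funext u
    rw [map_relO]
  have hz0map : ∀ u, PowerSeries.constantCoeff (PowerSeries.C (z0 N p r m U γ u) : A⟦X⟧) =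
      z0 N p r m U γ u := fun u => PowerSeries.constantCoeff_C _
  refine ⟨κ, inferInstance, a, M, Nm, ha, ?_⟩
  refine ⟨fun q => ?_, fun y η δ => ?_, fun y hy δ q => ?_, fun e₁ q => ?_, fun δ b => ?_⟩
  · rw [PowerSeries.X_dvd_iff, ← cf_map, map_EE, hFmap]
    have h1 : (fun u => PowerSeries.constantCoeff (PowerSeries.C (z0 N p r m U γ u) +
        PC.ex a (fun _ => PowerSeries.C (0 : A)) u : A⟦X⟧)) = z0 N p r m U γ := by
      funext u
      have h2 : PC.ex a (fun _ => PowerSeries.C (0 : A)) u = (0 : A⟦X⟧) := by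
        rw [map_zero]
        exact PC.ex_zero a u
      rw [h2, add_zero, hz0map]
    rw [h1]
    simp only [PowerSeries.constantCoeff_C]
    rw [EE_z0 hd γ T (F := F0) hf]
    simp [cf]
  · obtain ⟨c, hc⟩ := EE_taylor (e := eO d e) p (fun i => (PowerSeries.C (γ i) : A⟦X⟧))
      (PowerSeries.C T) (relO f rel) (fun u => PowerSeries.C (z0 N p r m U γ u) + PC.ex a y u) (PC.ex a δ) η
    refine ⟨cf Nn c, fun q => ?_⟩
    have h1 : (fun u => (PowerSeries.C (z0 N p r m U γ u) : A⟦X⟧) + PC.ex a (fun b => y b + η * δ b) u) =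
        fun u => (PowerSeries.C (z0 N p r m U γ u) + PC.ex a y u) + η * PC.ex a δ u := by
      funext u
      rw [PC.ex_add, add_assoc]
    rw [h1, hc, cf_add, cf_add, Pi.add_apply, Pi.add_apply, cf_C_mul, ← C_pow, cf_C_mul]
  · rw [PowerSeries.X_dvd_iff, map_sub, sub_eq_zero, ← cf_map, map_JJ, hFmap]
    have h0 : ∀ b, PowerSeries.constantCoeff (y b) = 0 := by
      intro b
      have h1 := hy b
      rw [map_zero, sub_zero, PowerSeries.X_dvd_iff] at h1
      exact h1
    have h1 : (fun u => PowerSeries.constantCoeff (PowerSeries.C (z0 N p r m U γ u) +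
        PC.ex a y u : A⟦X⟧)) = z0 N p r m U γ := by
      funext u
      rw [map_add, hz0map, PC.map_ex, funext h0, PC.ex_zero, add_zero]
    rw [h1]
    simp only [PowerSeries.constantCoeff_C]
    have h2 : (fun u => PowerSeries.constantCoeff (PC.ex a δ u)) =
        ∑ b, PowerSeries.constantCoeff (δ b) • fun u => if a b = u then (1 : A) else 0 := by
      funext u
      rw [PC.map_ex, Finset.sum_apply]
      simp only [PC.ex]
      refine Finset.sum_congr rfl fun b _ => ?_
      rw [Pi.smul_apply, smul_eq_mul]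
      by_cases h : a b = u
      · rw [if_pos h, if_pos h]
      · rw [if_neg h, if_neg h]
    rw [h2]
    change L (∑ b, PowerSeries.constantCoeff (δ b) • fun u => if a b = u then (1 : A) else 0) q = _
    rw [map_sum, Finset.sum_apply, map_sum]
    refine Finset.sum_congr rfl fun b _ => ?_
    rw [map_smul, Pi.smul_apply, map_mul, PowerSeries.constantCoeff_C, smul_eq_mul, mul_comm]
  · simp only [Finset.mul_sum]
    rw [Finset.sum_comm]
    have h1 : ∀ q', ∑ b, PowerSeries.C (M q b) * (PowerSeries.C (Nm b q') * e₁ q') =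
        if q = q' then e₁ q' else 0 := by
      intro q'
      have h2 := congrArg (PowerSeries.C (R := A)) (hMN q q')
      rw [map_sum] at h2
      have h3 : ∑ b, PowerSeries.C (M q b) * (PowerSeries.C (Nm b q') * e₁ q') =
          (∑ b, PowerSeries.C (M q b * Nm b q')) * e₁ q' := by
        rw [Finset.sum_mul]
        exact Finset.sum_congr rfl fun b _ => by rw [map_mul, mul_assoc]
      rw [h3, h2]
      split_ifs
      · rw [map_one, one_mul]
      · rw [map_zero, zero_mul]
    rw [Finset.sum_congr rfl fun q' _ => h1 q', Finset.sum_ite_eq Finset.univ q,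
      if_pos (Finset.mem_univ q)]
  · simp only [Finset.mul_sum]
    rw [Finset.sum_comm]
    have h1 : ∀ b', ∑ q, PowerSeries.C (Nm b q) * (PowerSeries.C (M q b') * δ b') =
        if b = b' then δ b' else 0 := by
      intro b'
      have h2 := congrArg (PowerSeries.C (R := A)) (hNM b b')
      rw [map_sum] at h2
      have h3 : ∑ q, PowerSeries.C (Nm b q) * (PowerSeries.C (M q b') * δ b') =
          (∑ q, PowerSeries.C (Nm b q * M q b')) * δ b' := by
        rw [Finset.sum_mul]
        exact Finset.sum_congr rfl fun q _ => by rw [map_mul, mul_assoc]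
      rw [h3, h2]
      split_ifs
      · rw [map_one, one_mul]
      · rw [map_zero, zero_mul]
    rw [Finset.sum_congr rfl fun b' _ => h1 b', Finset.sum_ite_eq Finset.univ b,
      if_pos (Finset.mem_univ b)]

end Sol

end Pool.Agent.SX
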